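import Pool.Agent.Run7.h582.FM.AeX
import Pool.Agent.Run7.h582.FM.AePos
import Pool.Agent.N213.GF.I

/-!
# Weighted level of distribution beyond one half for all the residues near `lam n * x + c n`, for almost every `x` of all measures with Fourier decay

Let `N n ≥ exp (n ^ η)`, and let `lam n`, `c n` be real numbers with `N n / log ^ T (N n) ≤ lam n ≤ B N n` and
`|c n| ≤ B N n`. For every `n` let at most `log ^ T (N n)` systems of divisor-bounded weights on the moduli and arbitrary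
heights `≤ B N n` depending on the moduli be given, and let `ε > 0`. A real number `x` is called generic if for all `U`, `W`
and all large `n` the weighted sums of the errors `E(y; d, r)` over the moduli `d ≤ (N n) ^ (1 - ε)` coprime to `r` are at
most `N n / log ^ U (N n)`, for ALL the residues `r` at a distance of at most `log ^ W (N n)` from `lam n * x + c n` and for
all the systems.

Almost every `x` is generic with respect to EVERY finite Borel measure with bounded support whose Fourier transform is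
`O (|ξ| ^ (-δ))` for some `δ > 0`. Thus the set of the real numbers which are not generic has Fourier dimension zero.

The proof: the measure is replaced by finite families of real numbers with the same exponential sums
(`Pool.Agent.Run7.h582.FM`); these families form a class of distributions (helper844, `Pool.Agent.Run7.h844.RP`), and the level
of distribution for almost all members of such classes is from the starting files (`Pool.Agent.N625.DY`,
`Pool.Agent.N213.GF`).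
-/

set_option autoImplicit false
set_option maxHeartbeats 4000000

namespace Pool.Agent.Results.MP_188a10_nt.FourierDecayResidues

open Finset Filter MeasureTheory

/-- `E(x; d, r) = ψ(x; d, r) - x / φ(d)`, where `ψ(x; d, r)` is the sum of `Λ(n)` over the `n ≤ x` with
`n ≡ r (mod d)`. -/
noncomputable def E (x d r : ℕ) : ℝ :=
  ∑ n ∈ (Icc 1 x).filter (fun n => n ≡ r [MOD d]), ArithmeticFunction.vonMangoldt n - (x : ℝ) / Nat.totient d

/-- The sum of `λ(d) E(x(d); d, r)` over the `d ≤ Q` coprime to `r`. -/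
noncomputable def weighted (lam : ℕ → ℝ) (x : ℕ → ℕ) (Q r : ℕ) : ℝ :=
  ∑ d ∈ (Icc 1 Q).filter (fun d => r.Coprime d), lam d * E (x d) d r

/-- With `Q = N ^ (1 - ε)`: the sum of `λ(d) E(y; d, r)` over the `d ≤ Q` coprime to `r` is at most `N / (log N) ^ U` in
absolute value for all `y ≤ B N`, and so is the sum of `λ(d) E(x(d); d, r)`. -/
def Level (B U N : ℕ) (ε : ℝ) (lam : ℕ → ℝ) (x : ℕ → ℕ) (r : ℕ) : Prop :=
  (∀ y ≤ B * N, |weighted lam (fun _ => y) ⌊(N : ℝ) ^ (1 - ε)⌋₊ r| ≤ N / Real.log N ^ U) ∧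
  |weighted lam x ⌊(N : ℝ) ^ (1 - ε)⌋₊ r| ≤ N / Real.log N ^ U

/-- `N n ≥ exp (n ^ η)`, `|c n| ≤ B N n` and `N n / log ^ T (N n) ≤ lam n ≤ B N n` for large `n`. -/
def Scales (η : ℝ) (B T : ℕ) (N : ℕ → ℕ) (lam c : ℕ → ℝ) : Prop :=
  ∀ᶠ n : ℕ in atTop, Real.exp ((n : ℝ) ^ η) ≤ N n ∧ |c n| ≤ B * N n ∧ lam n ≤ B * N n ∧
    (N n : ℝ) ≤ lam n * Real.log (N n) ^ T

/-- For large `n` the `L n ≤ log ^ T (N n)` weights `w n l` satisfy `|w n l d| ≤ (log (N n) τ(d)) ^ T`, where `τ(d)` is the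
number of the divisors of `d`, and the heights `h n l d` are at most `B N n`. -/
def Systems (B T : ℕ) (N L : ℕ → ℕ) (w : ∀ n : ℕ, Fin (L n) → ℕ → ℝ) (h : ∀ n : ℕ, Fin (L n) → ℕ → ℕ) : Prop :=
  ∀ᶠ n : ℕ in atTop, (L n : ℝ) ≤ Real.log (N n) ^ T ∧
    (∀ l d, |w n l d| ≤ (Real.log (N n) * d.divisors.card) ^ T) ∧ ∀ l d, h n l d ≤ B * N n

/-- For all `U`, `W` and all large `n`, `Level` holds for all the systems and for all the residues `r ≥ 1` at a distance of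
at most `log ^ W (N n)` from `lam n * x + c n`. -/
def Generic (ε : ℝ) (B : ℕ) (N L : ℕ → ℕ) (w : ∀ n : ℕ, Fin (L n) → ℕ → ℝ) (h : ∀ n : ℕ, Fin (L n) → ℕ → ℕ)
    (lam c : ℕ → ℝ) (x : ℝ) : Prop :=
  ∀ U W : ℕ, ∀ᶠ n : ℕ in atTop, ∀ r : ℕ, 0 < r →
    |(r : ℝ) - (lam n * x + c n)| ≤ Real.log (N n) ^ W → ∀ l, Level B U (N n) ε (w n l) (h n l) r

/-- `μ` is a finite Borel measure with bounded support and its Fourier transform `ξ ↦ ∫ exp (i ξ t) dμ (t)` is
`O (|ξ| ^ (-δ))` for some `δ > 0`. -/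
def FourierDecay (μ : Measure ℝ) : Prop :=
  IsFiniteMeasure μ ∧ (∃ R : ℝ, μ (Set.Icc (-R) R)ᶜ = 0) ∧ ∃ C δ : ℝ, 0 < δ ∧ ∀ ξ : ℝ, ξ ≠ 0 →
    ‖∫ t : ℝ, Complex.exp (((ξ * t : ℝ) : ℂ) * Complex.I) ∂μ‖ ≤ C * |ξ| ^ (-δ)

lemma weighted_cut (lam : ℕ → ℝ) (x : ℕ → ℕ) (Q Q' r : ℕ) (h : Q ≤ Q') :
    weighted lam x Q r = ∑ d ∈ (Icc 1 Q').filter (fun d => r.Coprime d), (if d ≤ Q then lam d else 0) *
      Pool.Agent.N625.DY.Err (x d) d r := by
  unfold weighted
  rw [← sum_filter_add_sum_filter_not ((Icc 1 Q').filter (fun d => r.Coprime d)) (fun d => d ≤ Q)]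
  have h1 : ∑ d ∈ ((Icc 1 Q').filter (fun d => r.Coprime d)).filter (fun d => ¬ d ≤ Q), (if d ≤ Q then lam d else 0) *
      Pool.Agent.N625.DY.Err (x d) d r = 0 := by
    apply sum_eq_zero
    intro d hd
    rw [mem_filter] at hd
    rw [if_neg hd.2, zero_mul]
  rw [h1, add_zero]
  have h2 : ((Icc 1 Q').filter (fun d => r.Coprime d)).filter (fun d => d ≤ Q) = (Icc 1 Q).filter (fun d => r.Coprime d) := by
    ext d
    simp only [mem_filter, mem_Icc]
    constructor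
    · rintro ⟨⟨⟨h3, _⟩, h4⟩, h5⟩
      exact ⟨⟨h3, h5⟩, h4⟩
    · rintro ⟨⟨h3, h4⟩, h5⟩
      exact ⟨⟨⟨h3, h4.trans h⟩, h5⟩, h4⟩
  rw [h2]
  apply sum_congr rfl
  intro d hd
  rw [mem_filter, mem_Icc] at hd
  rw [if_pos hd.1.2]
  rfl

/-- the parameters: the scale, the number of the systems, the weights, the heights -/
abbrev Th : Type := Σ z : ℕ × ℕ, (Fin z.2 → ℕ → ℝ) × (Fin z.2 → ℕ → ℕ)

/-- the condition on the parameters, at the scale `M` -/
def RR (B T M : ℕ) (θ : Th) : Prop :=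
  θ.1.1 ≤ M ∧ (M : ℝ) ≤ θ.1.1 * Real.log M ∧ (θ.1.2 : ℝ) ≤ Real.log M ^ T ∧
  (∀ l d, |θ.2.1 l d| ≤ (Real.log M * d.divisors.card) ^ T) ∧ ∀ l d, θ.2.2 l d ≤ B * θ.1.1

open Classical in
lemma thin (B T U W : ℕ) (ε : ℝ) (hε : 0 < ε) : Pool.Agent.Run7.h582.FM.ThinX (RR B T)
    (fun M θ y => ∀ r : ℤ, |(r : ℝ) - y| ≤ Real.log M ^ W → 0 < r →
      ∀ l, Level B U θ.1.1 ε (θ.2.1 l) (θ.2.2 l) r.toNat) := by
  intro B' δ hδ hδ1 U'
  obtain ⟨ε', hε'⟩ : ∃ ε' : ℝ, ε' = min ε 1 := ⟨_, rfl⟩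
  have hε'0 : 0 < ε' := by rw [hε']; exact lt_min hε one_pos
  have hε'1 : ε' ≤ 1 := by rw [hε']; exact min_le_right _ _
  have hε'2 : ε' ≤ ε := by rw [hε']; exact min_le_left _ _
  obtain ⟨V, N₀, h0⟩ := Pool.Agent.Run7.h844.RP.transferXN (Θ := ℕ × Th) B' δ hδ hδ1 0 1 one_ne_zero (U' + 1)
    (fun k θ => θ.1 = k ∧ (θ.2.1.2 : ℝ) ≤ (k : ℝ) ^ T ∧
      (∀ l d, |(if d ≤ ⌊(θ.2.1.1 : ℝ) ^ (1 - ε)⌋₊ then θ.2.2.1 l d else 0)| ≤ (k : ℝ) ^ T * (d.divisors.card : ℝ) ^ T) ∧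
      ∀ l d, θ.2.2.2 l d ≤ B * 2 ^ k)
    (fun θ m => ∀ y : ℤ, |y - m| ≤ (θ.1 : ℤ) ^ (W + 1) → 0 < y →
      ∀ l, Pool.Agent.N213.GF.Heavy 2 B (U + 4) θ.1 ε' (fun d => if d ≤ ⌊(θ.2.1.1 : ℝ) ^ (1 - ε)⌋₊ then θ.2.2.1 l d else 0)
        (θ.2.2.2 l) y.toNat) (fun C hC => by
      obtain ⟨k₀, h1⟩ := Pool.Agent.N213.GF.cls_heavy_near hC.toCls (B + 1) T (W + 1) (U + U' + 4) ε' hε'0
      refine ⟨k₀ + 1, fun k hk θ hθ p hp c hc => ?_⟩
      obtain ⟨hθ1, hθ2, hθ3, hθ4⟩ := hθ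
      subst hθ1
      have h2 := h1 θ.1 (by omega) p hp c (by
        refine hc.trans ?_
        have : (0 : ℤ) < 2 ^ θ.1 := by positivity
        push_cast
        nlinarith [(Nat.cast_nonneg B : (0 : ℤ) ≤ (B : ℤ))]) θ.2.1.2 hθ2 _ hθ3 θ.2.2.2
          (fun l d => (hθ4 l d).trans (Nat.mul_le_mul_right _ (by omega)))
      have hk1 : (1 : ℝ) ≤ (θ.1 : ℝ) := by exact_mod_cast (by omega : 1 ≤ θ.1)
      have hp0 : ∀ v, 0 ≤ p v := hC.nonneg θ.1 p hp
      refine le_trans (sum_le_sum fun v _ => ?_) (h2.trans ?_)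
      · by_cases hg : (∀ y : ℤ, |y - (c + 1 * ((v : ℕ) : ℤ))| ≤ (θ.1 : ℤ) ^ (W + 1) → 0 < y →
            ∀ l, Pool.Agent.N213.GF.Heavy 2 (B + 1) (U + U' + 4) θ.1 ε'
              (fun d => if d ≤ ⌊(θ.2.1.1 : ℝ) ^ (1 - ε)⌋₊ then θ.2.2.1 l d else 0) (θ.2.2.2 l) y.toNat)
        · rw [if_pos hg, if_pos]
          intro y hy hy0 l
          obtain ⟨g1, g2⟩ := hg y hy hy0 l
          have e1 : ((2 ^ θ.1 : ℕ) : ℝ) / (θ.1 : ℝ) ^ (U + U' + 4) ≤ ((2 ^ θ.1 : ℕ) : ℝ) / (θ.1 : ℝ) ^ (U + 4) :=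
            div_le_div_of_nonneg_left (Nat.cast_nonneg _) (by positivity) (pow_le_pow_right₀ hk1 (by omega))
          exact ⟨fun z hz => (g1 z (hz.trans (Nat.mul_le_mul_right _ (by omega)))).trans e1, g2.trans e1⟩
        · rw [if_neg hg]
          split_ifs
          · exact hp0 v
          · exact le_rfl
      · exact one_div_le_one_div_of_le (by positivity) (pow_le_pow_right₀ hk1 (by omega)))
  have hL : Tendsto (fun N : ℕ => Real.log (N : ℝ)) atTop atTop := Real.tendsto_log_atTop.comp tendsto_natCast_atTop_atTop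
  obtain ⟨N₁, hN₁⟩ := eventually_atTop.1 ((hL.eventually_ge_atTop 3).and
    ((tendsto_natCast_atTop_atTop (R := ℝ)).eventually (Pool.Agent.N193.PS.log_pow_ev 2 1 (1 / 2) (by norm_num) (by norm_num))))
  refine ⟨V, N₀ + N₁ + 16, fun M hM θ hθ ι s y hy hES => ?_⟩
  obtain ⟨k, g4, g5, g2, g3, h3⟩ := h0 M (by omega)
  obtain ⟨hL3, hLM⟩ := hN₁ M (by omega)
  rw [one_mul] at hLM
  obtain ⟨hθ1, hθ2, hθ3, hθ4, hθ5⟩ := hθ
  obtain ⟨⟨⟨Nn, Ln⟩, lam, hh⟩, hθd⟩ : ∃ z : Th, z = θ := ⟨θ, rfl⟩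
  subst hθd
  simp only at hθ1 hθ2 hθ3 hθ4 hθ5 ⊢
  have hM0 : (0 : ℝ) < M := by exact_mod_cast (by omega : 0 < M)
  have hL0 : 0 < Real.log M := by linarith
  have hk0 : (0 : ℝ) < k := by linarith
  have hk1 : (1 : ℝ) ≤ k := by linarith
  have hNM : (Nn : ℝ) ≤ M := by exact_mod_cast hθ1
  have hMk : (M : ℝ) ≤ 2 ^ k := by
    refine le_trans ?_ g2
    rw [zero_add, pow_one]
    nlinarith
  have hMkn : M ≤ 2 ^ k := by exact_mod_cast hMk
  -- `N` is large
  have hN1 : (1 : ℝ) < Nn := by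
    by_contra hcon
    push Not at hcon
    have h5 : (M : ℝ) ≤ Real.log M := by nlinarith
    have h6 : Real.log M ≤ M - 1 := Real.log_le_sub_one_of_pos hM0
    linarith
  have hN0 : (0 : ℝ) < Nn := by linarith
  have hlogN : Real.log M ≤ 2 * Real.log Nn := by
    have h5 : (M : ℝ) ≤ (Nn : ℝ) ^ 2 := by
      have h6 : Real.log M ≤ (1 + Real.log M) ^ 2 := by nlinarith
      have h7 : Real.log M ≤ (M : ℝ) ^ (1 / 2 : ℝ) := h6.trans hLM
      rw [← Real.sqrt_eq_rpow] at h7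
      have hs0 : 0 < √(M : ℝ) := Real.sqrt_pos.2 hM0
      have hs2 : √(M : ℝ) * √(M : ℝ) = M := Real.mul_self_sqrt hM0.le
      have h8 : √(M : ℝ) ≤ Nn := by
        by_contra hcon
        push Not at hcon
        nlinarith
      nlinarith
    have h6 := Real.log_le_log hM0 h5
    rw [Real.log_pow] at h6
    push_cast at h6
    exact h6
  have hlogN0 : 0 < Real.log Nn := by linarith
  have hlogNM : Real.log Nn ≤ Real.log M := Real.log_le_log hN0 hNM
  have hτ : ∀ d : ℕ, (0 : ℝ) ≤ (d.divisors.card : ℝ) := fun d => Nat.cast_nonneg _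
  have key := h3 (k, ⟨(Nn, Ln), lam, hh⟩) ⟨rfl, hθ3.trans (pow_le_pow_left₀ hL0.le g4 T), fun l d => by
      simp only
      split_ifs
      · refine (hθ4 l d).trans ?_
        rw [← mul_pow]
        apply pow_le_pow_left₀ (mul_nonneg hL0.le (hτ d))
        exact mul_le_mul_of_nonneg_right g4 (hτ d)
      · rw [abs_zero]
        positivity, fun l d => (hθ5 l d).trans (Nat.mul_le_mul_left _ (hθ1.trans hMkn))⟩ ι s y hy hES 0 (by
      rw [Int.cast_zero, abs_zero]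
      positivity)
  refine le_trans (Nat.cast_le.2 (card_le_card fun i hi => ?_)) (key.trans ?_)
  swap
  · exact div_le_div_of_nonneg_left (Nat.cast_nonneg _) (by positivity) (pow_le_pow_right₀ (by linarith) (by omega))
  rw [mem_filter] at hi ⊢
  refine ⟨hi.1, fun hcon => hi.2 fun r hr hr0 l => ?_⟩
  have hr' : |r - (0 + 1 * ⌊y i⌋)| ≤ (k : ℤ) ^ (W + 1) := by
    have h5 : ((|r - (0 + 1 * ⌊y i⌋)| : ℤ) : ℝ) ≤ (((k : ℤ) ^ (W + 1) : ℤ) : ℝ) := by
      push_cast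
      rw [zero_add, one_mul]
      have h8 := Int.floor_le (y i)
      have h9 := Int.lt_floor_add_one (y i)
      have h10 : |(r : ℝ) - ⌊y i⌋| ≤ |(r : ℝ) - y i| + 1 := by
        have : (r : ℝ) - ⌊y i⌋ = (r - y i) + (y i - ⌊y i⌋) := by ring
        rw [this]
        refine (abs_add_le _ _).trans (add_le_add le_rfl ?_)
        rw [abs_of_nonneg (by linarith)]
        linarith
      have h11 : 1 ≤ Real.log M ^ W := one_le_pow₀ (by linarith)
      have h12 : Real.log M ^ W ≤ (k : ℝ) ^ W := pow_le_pow_left₀ hL0.le g4 W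
      have h13 : (3 : ℝ) ≤ k := by linarith
      rw [pow_succ]
      nlinarith
    exact_mod_cast h5
  obtain ⟨g6, g7⟩ := hcon r hr' hr0 l
  -- the size of the error
  have hsc : ((2 ^ k : ℕ) : ℝ) / (k : ℝ) ^ (U + 4) ≤ Nn / Real.log Nn ^ U := by
    rw [div_le_div_iff₀ (by positivity) (by positivity)]
    push_cast
    calc (2 : ℝ) ^ k * Real.log Nn ^ U ≤ ((k : ℝ) ^ (0 + 2) * M) * (k : ℝ) ^ U := by
          apply mul_le_mul g3 _ (by positivity) (by positivity)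
          exact pow_le_pow_left₀ hlogN0.le (hlogNM.trans g4) U
      _ ≤ ((k : ℝ) ^ (0 + 2) * (Nn * k)) * (k : ℝ) ^ U := by
          apply mul_le_mul_of_nonneg_right _ (by positivity)
          apply mul_le_mul_of_nonneg_left _ (by positivity)
          exact hθ2.trans (mul_le_mul_of_nonneg_left g4 hN0.le)
      _ = Nn * (k : ℝ) ^ (U + 3) := by ring
      _ ≤ Nn * (k : ℝ) ^ (U + 4) := by
          apply mul_le_mul_of_nonneg_left _ hN0.le
          exact pow_le_pow_right₀ hk1 (by omega)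
  have hQQ : ⌊(Nn : ℝ) ^ (1 - ε)⌋₊ ≤ ⌊((2 ^ k : ℕ) : ℝ) ^ (1 - ε')⌋₊ := by
    apply Nat.floor_le_floor
    have hNkr : (Nn : ℝ) ≤ ((2 ^ k : ℕ) : ℝ) := by exact_mod_cast hθ1.trans hMkn
    calc (Nn : ℝ) ^ (1 - ε) ≤ (Nn : ℝ) ^ (1 - ε') := Real.rpow_le_rpow_of_exponent_le hN1.le (by linarith)
      _ ≤ ((2 ^ k : ℕ) : ℝ) ^ (1 - ε') := Real.rpow_le_rpow hN0.le hNkr (by linarith)
  refine ⟨fun z hz => ?_, ?_⟩
  · rw [weighted_cut (lam l) (fun _ => z) _ _ r.toNat hQQ]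
    exact (g6 z (hz.trans (Nat.mul_le_mul_left _ (hθ1.trans hMkn)))).trans hsc
  · rw [weighted_cut (lam l) (hh l) _ _ r.toNat hQQ]
    exact g7.trans hsc

/-- Let `ε > 0`, `η > 0`, `B`, `T`, sequences `N`, `lam`, `c` with `Scales η B T N lam c`, weights `w` and heights `h` with
`Systems B T N L w h` be given. Then almost every real number `x` is generic with respect to every measure `μ` with
`FourierDecay μ`: for all `U`, `W` and all large `n`, for ALL the residues `r ≥ 1` with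
`|r - (lam n * x + c n)| ≤ log ^ W (N n)` and for all `l`, the sum of `w n l d * E(h n l d; d, r)` over the
`d ≤ (N n) ^ (1 - ε)` coprime to `r` is at most `N n / log ^ U (N n)` in absolute value, and so is the sum of
`w n l d * E(y; d, r)` for all `y ≤ B N n`. -/
theorem result (ε : ℝ) (hε : 0 < ε) (η : ℝ) (hη : 0 < η) (B T : ℕ) (N L : ℕ → ℕ) (lam c : ℕ → ℝ) (hS : Scales η B T N lam c)
    (w : ∀ n : ℕ, Fin (L n) → ℕ → ℝ) (h : ∀ n : ℕ, Fin (L n) → ℕ → ℕ) (hw : Systems B T N L w h)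
    (μ : Measure ℝ) (hμ : FourierDecay μ) :
    ∀ᵐ x ∂μ, Generic ε B N L w h lam c x := by
  have hNl : Tendsto (fun n : ℕ => Real.log (N n)) atTop atTop := by
    apply tendsto_atTop_mono' _ _ ((tendsto_rpow_atTop hη).comp tendsto_natCast_atTop_atTop)
    filter_upwards [hS] with n hn
    rw [Function.comp_apply, Real.le_log_iff_exp_le ((Real.exp_pos _).trans_le hn.1)]
    exact hn.1
  have key : ∀ U W : ℕ, ∀ᵐ x ∂μ, ∀ᶠ n : ℕ in atTop, ∀ r : ℤ, |(r : ℝ) - (lam n * x + c n)| ≤ Real.log (N n) ^ W →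
      0 < r → ∀ l, Level B U (N n) ε (w n l) (h n l) r.toNat := by
    intro U W
    refine Pool.Agent.Run7.h582.FM.ae_of_thinX (RR B T) _ (thin B T U (W + 1) ε hε)
      (fun n y => ∀ r : ℤ, |(r : ℝ) - y| ≤ Real.log (N n) ^ W → 0 < r →
        ∀ l, Level B U (N n) ε (w n l) (h n l) r.toNat) N (fun K hK => ?_) μ hμ η hη B T lam c hS
    refine ⟨fun n => ⟨(N n, L n), w n, h n⟩, ?_⟩
    filter_upwards [hw, hNl.eventually_ge_atTop (K : ℝ), hNl.eventually_ge_atTop 2, hS] with n hn hnK hn2 hnS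
    obtain ⟨hw1, hw2, hw3⟩ := hn
    have hNpos : (0 : ℝ) < N n := (Real.exp_pos _).trans_le hnS.1
    have hle : Real.log (N n) ≤ Real.log ((K * N n : ℕ) : ℝ) := by
      apply Real.log_le_log hNpos
      exact_mod_cast Nat.le_mul_of_pos_left (N n) (by omega)
    refine ⟨⟨Nat.le_mul_of_pos_left (N n) (by omega), ?_, hw1.trans (pow_le_pow_left₀ (by linarith) hle T), fun l d => ?_,
      hw3⟩, ?_⟩
    · calc ((K * N n : ℕ) : ℝ) = N n * K := by push_cast; ring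
        _ ≤ N n * Real.log ((K * N n : ℕ) : ℝ) := mul_le_mul_of_nonneg_left (hnK.trans hle) hNpos.le
    · refine (hw2 l d).trans ?_
      apply pow_le_pow_left₀ (mul_nonneg (by linarith) (Nat.cast_nonneg _))
      exact mul_le_mul_of_nonneg_right hle (Nat.cast_nonneg _)
    · intro y y' hy hP r hr hr0
      refine hP r ?_ hr0
      have h3 : |(r : ℝ) - y'| ≤ |(r : ℝ) - y| + 1 := by
        have : (r : ℝ) - y' = (r - y) + (y - y') := by ring
        rw [this]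
        refine (abs_add_le _ _).trans (add_le_add le_rfl ?_)
        rw [abs_sub_comm]
        exact hy
      have h4 : 1 ≤ Real.log (N n) ^ W := one_le_pow₀ (by linarith)
      have h5 : Real.log (N n) ^ (W + 1) ≤ Real.log ((K * N n : ℕ) : ℝ) ^ (W + 1) := pow_le_pow_left₀ (by linarith) hle _
      have h6 : Real.log (N n) ^ W + 1 ≤ Real.log (N n) ^ (W + 1) := by
        rw [pow_succ]
        nlinarith
      linarith
  simp only [← ae_all_iff] at key
  filter_upwards [key] with x hx U W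
  filter_upwards [hx U W] with n hn r hr hrn l
  have := hn (r : ℤ) (by rw [Int.cast_natCast]; exact hrn) (by exact_mod_cast hr) l
  rwa [Int.toNat_natCast] at this

end Pool.Agent.Results.MP_188a10_nt.FourierDecayResidues
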