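import Pool.Agent.Run7.h710.TR.Cnt
import Pool.Agent.N213.GF.I

/-!
# Weighted level of distribution beyond one half for the residues written by a transducer

Divisor-bounded weights, heights which depend on the moduli, all the residues near `c + κ T(v)` for almost all integers
`v < a ^ k`, where the transducer `T` reads the digits of `v` in base `a` and writes the digits of `T(v)` in base `b`
(definitions in `Pool.Agent.Run7.h710.TR.Defs`).

Method: if two words of `L` digits lead from the same state to the same state and different words are written, then the two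
parts of the exponential sum over the integers `T(v)` which belong to these words cancel in part at the places where the
frequency has a digit which is not extremal. From the starting files: the passage from such exponential sums to the level of
distribution (`Pool.Agent.TH872`), in a generic form: `Pool.Agent.N625.DY` (helper625); and from bounded to divisor-bounded
weights (`Pool.Agent.TH872.GQ.Dual`, `Pool.Agent.N213.GF.I`).

Examples: the bitwise conjunction or disjunction of `v` and `m v` (the carries are the states); the integer whose digit `i`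
is `f(x_i, x_{i+1}, …, x_{i+r})`, where `x_i` are the digits of `v` and `f` is not constant (one-sided cellular automata).
-/

set_option autoImplicit false

namespace Pool.Agent.Results.MP_188a10_nt.TransducerResidues

open Finset Pool.Agent.Run7.h710.TR

/-- `E(x; d, r) = ψ(x; d, r) - x / φ(d)`, where `ψ(x; d, r)` is the sum of `Λ(n)` over the `n ≤ x` with
`n ≡ r (mod d)`. -/
noncomputable def E (x d r : ℕ) : ℝ :=
  ∑ n ∈ (Icc 1 x).filter (fun n => n ≡ r [MOD d]), ArithmeticFunction.vonMangoldt n - (x : ℝ) / Nat.totient d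

/-- The sum of `λ(d) E(x(d); d, r)` over the `d ≤ Q` coprime to `r`. -/
noncomputable def weighted (lam : ℕ → ℝ) (x : ℕ → ℕ) (Q r : ℕ) : ℝ :=
  ∑ d ∈ (Icc 1 Q).filter (fun d => r.Coprime d), lam d * E (x d) d r

/-- With `N = b ^ k` and `Q = N ^ (1 - ε)`: the sum of `λ(d) E(y; d, r)` over the `d ≤ Q` coprime to `r` is at most `N / k ^ U`
in absolute value for all `y ≤ B N`, and so is the sum of `λ(d) E(x(d); d, r)`. -/
def Level (b B U k : ℕ) (ε : ℝ) (lam : ℕ → ℝ) (x : ℕ → ℕ) (r : ℕ) : Prop :=
  (∀ y ≤ B * b ^ k, |weighted lam (fun _ => y) ⌊((b ^ k : ℕ) : ℝ) ^ (1 - ε)⌋₊ r| ≤ ((b ^ k : ℕ) : ℝ) / (k : ℝ) ^ U) ∧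
  |weighted lam x ⌊((b ^ k : ℕ) : ℝ) ^ (1 - ε)⌋₊ r| ≤ ((b ^ k : ℕ) : ℝ) / (k : ℝ) ^ U

open Classical in
/-- Let `a`, `b ≥ 2`, `m ≥ 1`, `κ ≠ 0`, `B`, `T`, `W`, `U` and `ε > 0` be fixed, let `k` be large, `N = b ^ k` and
`Q = N ^ (1 - ε)`. Let an arbitrary transducer be given which reads digits `< a` and writes digits `< b` (with finitely or
infinitely many states) such that from every state two words of `m` digits lead to the same state, while different words are
written; let it begin in an arbitrary state `s` and read from the left or from the right, and let `c` be an arbitrary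
integer with `|c| ≤ B N` (`k` must be large in terms of the fixed numbers only). Let at most `k ^ T` systems of
coefficients `λ_l(d)` with `|λ_l(d)| ≤ (k τ(d)) ^ T`, where `τ(d)` is the number of the divisors of `d` (for instance
`|λ_l(d)| ≤ 3 ^ ν(d)`, if `T = 2`), and arbitrary functions `x_l(d) ≤ B N` of the modulus be given. Then all the
`v < a ^ k`, with at most `a ^ k / k ^ U` exceptions, have the following property: ALL the residues `r > 0` at a distance of
at most `k ^ W` from `c + κ v'`, where `v'` is the integer which is written when `v` is read, satisfy for all `l`: the sum of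
`λ_l(d) E(x_l(d); d, r)` over the `d ≤ Q` coprime to `r` is at most `N / k ^ U` in absolute value, and so is the sum of
`λ_l(d) E(y; d, r)` for all `y ≤ B N`. -/
theorem result (a b m : ℕ) (hb : 2 ≤ b) (hm : 1 ≤ m) (κ : ℤ) (hκ : κ ≠ 0) (B T W U : ℕ) (ε : ℝ) (hε : 0 < ε) :
    ∃ k₀ : ℕ, ∀ k : ℕ, k₀ ≤ k → ∀ (S : Type) (δ : S → ℕ → S) (o : S → ℕ → ℕ), Transducer a b m δ o →
      ∀ (left : Bool) (s : S) (c : ℤ), |c| ≤ B * (b : ℤ) ^ k → ∀ L : ℕ, (L : ℝ) ≤ (k : ℝ) ^ T →
      ∀ lam : Fin L → ℕ → ℝ, (∀ l d, |lam l d| ≤ ((k : ℝ) * d.divisors.card) ^ T) →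
      ∀ x : Fin L → ℕ → ℕ, (∀ l d, x l d ≤ B * b ^ k) →
        (((range (a ^ k)).filter fun v => ¬ ∀ r : ℤ, |r - (c + κ * (image a b δ o left k s v : ℕ))| ≤ (k : ℤ) ^ W → 0 < r →
          ∀ l, Level b B U k ε (lam l) (x l) r.toNat).card : ℝ) ≤ (a : ℝ) ^ k / (k : ℝ) ^ U := by
  obtain ⟨k1, h1⟩ := Pool.Agent.N213.GF.cls_heavy_near (tr_clsV a b m hb hm κ hκ).toCls B T W U ε hε
  refine ⟨k1, fun k hk S δ o hT left s c hc L hL lam hlam x hx => ?_⟩
  refine exceptions hb hT left k s (fun v => ∀ r : ℤ, |r - (c + κ * (v : ℕ))| ≤ (k : ℤ) ^ W → 0 < r →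
    ∀ l, Level b B U k ε (lam l) (x l) r.toNat) U ?_
  refine le_trans (le_of_eq ?_) (h1 k hk _ ⟨S, δ, o, left, s, hT, rfl⟩ c hc L hL lam
    (fun l q => by rw [← mul_pow]; exact hlam l q) x hx)
  apply sum_congr rfl
  intro v _
  congr

end Pool.Agent.Results.MP_188a10_nt.TransducerResidues
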