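import Pool.Agent.Run7.h844.RP.Heavy

/-!
# Weighted level of distribution beyond one half for the residues near the values of generalised polynomials at primes

Divisor-bounded weights, heights which depend on the moduli.

Nothing is used besides Mathlib in the statement (`z.toNat`: the integer `z` if it is not negative).

Method: exponential sums over primes with the phase of a generalised polynomial: derivative bounds uniform in the
coefficients, van der Corput differencing of all orders, bilinear sums, Vaughan's identity (after `Pool.Agent.H895R3.NK`,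
`Pool.Agent.H373R2.T7`); a discrete Fejér kernel for the passage from real numbers to their integer parts, and a kernel
estimate for the concentration on short intervals which needs only the large frequencies (library
`Pool.Agent.Run7.h844.RP`, after `Pool.Agent.N384.MQ`, `Pool.Agent.N193.PS`). The passage from such exponential
sums to the level of distribution is from the starting files (`Pool.Agent.TH872`), in a generic form from
`Pool.Agent.N625.DY` (helper625), and with divisor-bounded weights from `Pool.Agent.N213.GF` (helper213).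
-/

set_option autoImplicit false

namespace Pool.Agent.Results.MP_188a10_nt.ValuesAtPrimes

open Finset

/-- The generalised polynomial `∑ a x * t ^ x`, `x ∈ F`, with real exponents and coefficients. -/
noncomputable def genPoly (F : Finset ℝ) (a : ℝ → ℝ) (t : ℝ) : ℝ := ∑ x ∈ F, a x * t ^ x

/-- `c` is the largest exponent; it is positive and not an integer, and its coefficient is not zero. -/
def Leading (F : Finset ℝ) (a : ℝ → ℝ) (c : ℝ) : Prop :=
  c ∈ F ∧ (∀ x ∈ F, x ≤ c) ∧ 0 < c ∧ (∀ m : ℕ, c ≠ m) ∧ a c ≠ 0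

/-- `E(x; d, r) = ψ(x; d, r) - x / φ(d)`, where `ψ(x; d, r)` is the sum of `Λ(n)` over the `n ≤ x` with
`n ≡ r (mod d)`. -/
noncomputable def E (x d r : ℕ) : ℝ :=
  ∑ n ∈ (Icc 1 x).filter (fun n => n ≡ r [MOD d]), ArithmeticFunction.vonMangoldt n - (x : ℝ) / Nat.totient d

/-- The sum of `λ(d) E(x(d); d, r)` over the `d ≤ Q` coprime to `r`. -/
noncomputable def weighted (lam : ℕ → ℝ) (x : ℕ → ℕ) (Q r : ℕ) : ℝ :=
  ∑ d ∈ (Icc 1 Q).filter (fun d => r.Coprime d), lam d * E (x d) d r

/-- The sum of `λ(d) E(y; d, r)` over the `d ≤ Q` coprime to `r` is at most `Z` in absolute value for all `y ≤ S`, and so is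
the sum of `λ(d) E(x(d); d, r)`. -/
def Level (S : ℝ) (Q : ℕ) (Z : ℝ) (lam : ℕ → ℝ) (x : ℕ → ℕ) (r : ℕ) : Prop :=
  (∀ y : ℕ, (y : ℝ) ≤ S → |weighted lam (fun _ => y) Q r| ≤ Z) ∧ |weighted lam x Q r| ≤ Z

/-- `Level` for ALL the integers `r > 0` at a distance of at most `R` from `y`, and all the systems of weights and heights. -/
def Near {L : ℕ} (S : ℝ) (Q : ℕ) (Z : ℝ) (lam : Fin L → ℕ → ℝ) (x : Fin L → ℕ → ℕ) (R y : ℝ) : Prop :=
  ∀ r : ℤ, |(r : ℝ) - y| ≤ R → 0 < r → ∀ l, Level S Q Z (lam l) (x l) r.toNat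

open Classical in
/-- Let `f` be a generalised polynomial whose largest exponent `c` is positive and not an integer, and let `B`, `T`, `W`, `U`
and `0 < ε ≤ 1` be fixed. Let `X` be large, `Y = X ^ c` and `Q ≤ Y ^ (1 - ε)`, and let `z` be any real number with
`|z| ≤ Y`. Let at most `log ^ T X` systems of coefficients `λ_l(d)` with `|λ_l(d)| ≤ (τ(d) log X) ^ T` for `d ≥ 1`, where
`τ(d)` is the number of the divisors of `d` (for instance `|λ_l(d)| ≤ 3 ^ ν(d)`, if `T = 2`), and arbitrary functions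
`x_l(d) ≤ B Y` of the modulus be given. Then all the primes `X < p ≤ 2 X`, with at most `X / log ^ U X` exceptions, have the
following property: ALL the residues `r > 0` at a distance of at most `log ^ W X` from `f(p) + z` satisfy for all `l`: the
sum of `λ_l(d) E(x_l(d); d, r)` over the `d ≤ Q` coprime to `r` is at most `Y / log ^ U X` in absolute value, and so is the
sum of `λ_l(d) E(y; d, r)` for all `y ≤ B Y`. -/
theorem result (F : Finset ℝ) (a : ℝ → ℝ) (c : ℝ) (hF : Leading F a c) (B T W U : ℕ) (ε : ℝ) (hε : 0 < ε) (hε1 : ε ≤ 1) :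
    ∃ X₀ : ℕ, ∀ X : ℕ, X₀ ≤ X → ∀ Q : ℕ, (Q : ℝ) ≤ ((X : ℝ) ^ c) ^ (1 - ε) →
      ∀ L : ℕ, (L : ℝ) ≤ Real.log X ^ T → ∀ lam : Fin L → ℕ → ℝ,
      (∀ l, ∀ d : ℕ, 1 ≤ d → |lam l d| ≤ (Real.log X * d.divisors.card) ^ T) →
      ∀ x : Fin L → ℕ → ℕ, (∀ l d, (x l d : ℝ) ≤ B * (X : ℝ) ^ c) → ∀ z : ℝ, |z| ≤ (X : ℝ) ^ c →
      (((Ioc X (2 * X)).filter fun p : ℕ => p.Prime ∧
        ¬ Near (B * (X : ℝ) ^ c) Q ((X : ℝ) ^ c / Real.log X ^ U) lam x (Real.log X ^ W) (genPoly F a p + z)).card : ℝ) ≤
        X / Real.log X ^ U := by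
  obtain ⟨X₀, h0⟩ := Pool.Agent.Run7.h844.RP.heavy_primes F c hF.1 hF.2.2.2.1 hF.2.2.1 hF.2.1 a hF.2.2.2.2 B T W U ε hε hε1
  exact ⟨X₀, fun X hX Q hQ L hL lam hlam x hx z hz => h0 X hX ⟨Q, L, lam, x⟩ ⟨hQ, hL, hlam, hx⟩ z hz⟩

end Pool.Agent.Results.MP_188a10_nt.ValuesAtPrimes
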