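import Pool.Agent.N625.GW.D
import Pool.Agent.N213.GF.I

/-!
# Weighted level of distribution `1 - ε` of the primes for residues whose digits label walks in a graph

The weighted level of distribution `1 - ε` of the primes for all the residues near a random integer; the weights may be as
large as a power of the divisor function (for instance `3 ^ ν(d)`), with arbitrary signs, and the heights may depend on
the modulus.
The random integers are those whose digits are the labels of a walk between two vertices of a graph, for example of the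
Cayley graph of a group: then these are the integers whose digits spell a given element of the group. Such a set can
contain as few as `N ^ ε` integers below `N`, and in general it is not automatic.

Method: the exponential sum over the walks is dominated by the iterates of the adjacency operator of the graph, whose
square is diminished on the diagonal at the places where the frequency has a digit which is not extremal; the norms of
these operators on the cyclic space of a vertex are controlled by the number of the closed walks (starting files,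
`Pool.Agent.N625.GW`, helper625). The passage from such exponential sums to primes in residue classes with divisor-bounded weights is from the
starting files (`Pool.Agent.TH872`, `Pool.Agent.N213.GF.cls_heavy_near`). New here: the combination.

From Mathlib: `ArithmeticFunction.vonMangoldt`: the function `Λ`; `Nat.totient`: Euler's function.
-/

set_option autoImplicit false

namespace Pool.Agent.Results.MP_188a10_nt.WalkResidues

open Finset

/-- The digits `a < b` act on the set `X` of the vertices: an edge with the label `a` leads from `x` to `y` if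
`δ x a = some y` (at most one edge with the label `a` starts at `x`). The number of the edges from `x` to `y` equals the
number of the edges from `y` to `x`, and at least two edges start at every vertex. The graph may be infinite. -/
structure Graph {X : Type} (b : ℕ) (δ : X → ℕ → Option X) : Prop where
  symm : ∀ x y : X, {a : ℕ | a < b ∧ δ x a = some y}.ncard = {a : ℕ | a < b ∧ δ y a = some x}.ncard
  two : ∀ x : X, ∃ a a' : ℕ, a < a' ∧ a' < b ∧ (δ x a).isSome ∧ (δ x a').isSome

open Classical in
/-- The integers `v < b ^ k` whose `k` digits in base `b`, from the most significant to the least significant one (the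
digit number `i`, `0 ≤ i < k`, from the left is `v / b ^ (k - 1 - i) % b`), are the labels of a walk from `x` to `y`. -/
noncomputable def walks {X : Type} (b : ℕ) (δ : X → ℕ → Option X) (k : ℕ) (x y : X) : Finset ℕ :=
  (range (b ^ k)).filter fun v =>
    ((List.range k).map fun i => v / b ^ (k - 1 - i) % b).foldl (fun s a => s.bind fun z => δ z a) (some x) = some y

/-- `E(x; d, a) = ψ(x; d, a) - x / φ(d)`, where `ψ(x; d, a)` is the sum of `Λ(n)` over the `n ≤ x` with
`n ≡ a (mod d)`. -/
noncomputable def Er (x d a : ℕ) : ℝ :=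
  ∑ n ∈ (Icc 1 x).filter (fun n => n ≡ a [MOD d]), ArithmeticFunction.vonMangoldt n - (x : ℝ) / Nat.totient d

/-- The sum of `λ(d) E(x(d); d, a)` over the `d ≤ Q` coprime to `a`. -/
noncomputable def weighted (lam : ℕ → ℝ) (x : ℕ → ℕ) (Q a : ℕ) : ℝ :=
  ∑ d ∈ (Icc 1 Q).filter (fun d => a.Coprime d), lam d * Er (x d) d a

/-- With `N = b ^ k` and `Q = N ^ (1 - ε)`: the sum of `λ(d) E(y; d, a)` over the `d ≤ Q` coprime to `a` is at most `N / k ^ U`
in absolute value for all `y ≤ B N`, and so is the sum of `λ(d) E(x(d); d, a)`. -/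
def Level (b B U k : ℕ) (ε : ℝ) (lam : ℕ → ℝ) (x : ℕ → ℕ) (a : ℕ) : Prop :=
  (∀ y ≤ B * b ^ k, |weighted lam (fun _ => y) ⌊((b ^ k : ℕ) : ℝ) ^ (1 - ε)⌋₊ a| ≤ ((b ^ k : ℕ) : ℝ) / (k : ℝ) ^ U) ∧
  |weighted lam x ⌊((b ^ k : ℕ) : ℝ) ^ (1 - ε)⌋₊ a| ≤ ((b ^ k : ℕ) : ℝ) / (k : ℝ) ^ U

open Classical in
/-- Let `x₀` be a vertex such that the number of the closed walks of length `2n` at `x₀` is at most `ρ ^ (2n)` for all `n`, let
`κ ≠ 0`, `B`, `D`, `T`, `W`, `U` and `ε > 0` be fixed, let `k` be large, `N = b ^ k`, `Q = N ^ (1 - ε)`, let `y` be any vertex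
such that there are at least `ρ ^ k / k ^ D` walks of length `k` from `x₀` to `y`, and let `c` be an arbitrary integer with
`|c| ≤ B N`. Let at most `k ^ T` systems of
coefficients `λ_l(d)` with `|λ_l(d)| ≤ (k τ(d)) ^ T`, where `τ(d)` is the number of the divisors of `d` (for instance
`|λ_l(d)| ≤ 3 ^ ν(d)`, if `T = 2`), and arbitrary functions `x_l(d) ≤ B N` of the modulus be given. Then all the
integers `v` whose `k` digits are the labels of a walk from `x₀` to `y`, with the exception of a proportion of at most
`1 / k ^ U` of them, have the following property: ALL the residues `a > 0` at a distance of at most `k ^ W` from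
`c + κ v` satisfy for all `l`: the sum of `λ_l(d) E(x_l(d); d, a)` over the `d ≤ Q` coprime to `a` is at most `N / k ^ U` in
absolute value, and so is the sum of `λ_l(d) E(y; d, a)` for all `y ≤ B N`.

(For a group of polynomial growth, a free group, or any group with the property of rapid decay, there are at least
`ρ ^ k / k ^ D` closed walks of every even length `k` in the Cayley graph, where `ρ` is its spectral radius.) -/
theorem result {X : Type} (b : ℕ) (δ : X → ℕ → Option X) (hG : Graph b δ) (x₀ : X) (ρ : ℝ) (hρ : 0 < ρ)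
    (hR : ∀ n : ℕ, ((walks b δ (2 * n) x₀ x₀).card : ℝ) ≤ ρ ^ (2 * n)) (κ : ℤ) (hκ : κ ≠ 0) (B D T W U : ℕ)
    (ε : ℝ) (hε : 0 < ε) :
    ∃ k₀ : ℕ, ∀ k : ℕ, k₀ ≤ k → ∀ y : X, ρ ^ k / (k : ℝ) ^ D ≤ (walks b δ k x₀ y).card →
      ∀ c : ℤ, |c| ≤ B * (b : ℤ) ^ k → ∀ L : ℕ, (L : ℝ) ≤ (k : ℝ) ^ T →
      ∀ lam : Fin L → ℕ → ℝ, (∀ l d, |lam l d| ≤ ((k : ℝ) * d.divisors.card) ^ T) →
      ∀ x : Fin L → ℕ → ℕ, (∀ l d, x l d ≤ B * b ^ k) →
      (((walks b δ k x₀ y).filter fun v => ¬ ∀ a : ℤ, |a - (c + κ * (v : ℕ))| ≤ (k : ℤ) ^ W → 0 < a →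
        ∀ l, Level b B U k ε (lam l) (x l) a.toNat).card : ℝ) ≤ (walks b δ k x₀ y).card / (k : ℝ) ^ U := by
  obtain ⟨k₀, h0⟩ := Pool.Agent.N213.GF.cls_heavy_near
    (Pool.Agent.N625.GW.w_cls (δ := δ) ⟨hG.symm, hG.two⟩ x₀ ρ hρ hR D κ hκ) B T W U ε hε
  refine ⟨k₀ + 1, fun k hk y hy c hc L hL lam hlam x hx => ?_⟩
  have hk1 : (0 : ℝ) < (k : ℝ) ^ D := by
    have : (0 : ℝ) < k := by exact_mod_cast (by omega : 0 < k)
    positivity
  have hy' : ρ ^ k ≤ (k : ℝ) ^ D * (walks b δ k x₀ y).card := by
    rw [div_le_iff₀ hk1, mul_comm] at hy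
    exact hy
  have h1 := Pool.Agent.N625.GW.w_count k x₀ y ρ hρ D hy'
    (fun v => ∀ a : ℤ, |a - (c + κ * (v : ℕ))| ≤ (k : ℤ) ^ W → 0 < a → ∀ l, Level b B U k ε (lam l) (x l) a.toNat)
    (1 / (k : ℝ) ^ U)
    (fun p hp => h0 k (by omega) p hp c hc L hL lam (fun l q => by rw [← mul_pow]; exact hlam l q) x hx)
  rw [mul_one_div] at h1
  exact h1

end Pool.Agent.Results.MP_188a10_nt.WalkResidues
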